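import Pool.Agent.H.MP_b23a2c_al.Fin

set_option autoImplicit false

namespace Pool.Agent.Results.MP_b23a2c_al.Finite

open CategoryTheory

universe u v

/-- the category FI: the object `n` stands for an `n`-element set -/
structure FI where
  n : ℕ

instance : SmallCategory FI where
  Hom a b := Fin a.n ↪ Fin b.n
  id a := Function.Embedding.refl (Fin a.n)
  comp f g := f.trans g

/-- a family of subspaces closed under the transition maps, that is, an FI-submodule -/
def IsSub {k : Type u} [Field k] (V : FI ⥤ ModuleCat.{v} k) (A : ∀ a, Submodule k (V.obj a)) :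
    Prop :=
  ∀ (a b : FI) (f : a ⟶ b), ∀ x ∈ A a, V.map f x ∈ A b

theorem result (k : Type u) [Field k] (V : FI ⥤ ModuleCat.{v} k) (hinj : Injective V)
    (hind : ∀ A B, IsSub V A → IsSub V B → (∀ a, IsCompl (A a) (B a)) →
      (∀ a, A a = ⊥) ∨ (∀ a, B a = ⊥))
    (htf : ∀ (a b : FI) (f : a ⟶ b), Function.Injective (V.map f)) :
    ∀ a : FI, FiniteDimensional k (V.obj a) := by
  let F : Pool.Agent.H.MP_b23a2c_al.FIM k (fun n => V.obj ⟨n⟩) :=
    { mp := fun {m n} f => (V.map (X := ⟨m⟩) (Y := ⟨n⟩) f).hom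
      mp_id := fun n x => by
        have := V.map_id ⟨n⟩
        change (V.map (𝟙 (⟨n⟩ : FI))).hom x = x
        rw [this]; rfl
      mp_comp := fun {l m n} f g x => by
        have := V.map_comp (X := ⟨l⟩) (Y := ⟨m⟩) (Z := ⟨n⟩) f g
        change _ = (V.map (X := ⟨l⟩) (Y := ⟨n⟩) (CategoryStruct.comp (X := ⟨l⟩) (Y := (⟨m⟩ : FI)) f g)).hom x
        rw [this]; rfl
      inj := fun {m n} f => htf ⟨m⟩ ⟨n⟩ f }
  intro a
  refine F.finite' (fun A B hA hB hAB => ?_) (fun A B hA hB hAB => ?_) a.n
  · let P : FI ⥤ ModuleCat.{v} k :=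
      { obj := fun a => ModuleCat.of k (A a.n × B a.n)
        map := fun {a b} f => ModuleCat.ofHom
          (((F.mp f).restrict (hA a.n b.n f)).prodMap ((F.mp f).restrict (hB a.n b.n f)))
        map_id := fun a => by
          refine ModuleCat.hom_ext (LinearMap.ext fun x => Prod.ext (Subtype.ext ?_) (Subtype.ext ?_))
          · exact F.mp_id _ _
          · exact F.mp_id _ _
        map_comp := fun f g => by
          refine ModuleCat.hom_ext (LinearMap.ext fun x => Prod.ext (Subtype.ext ?_) (Subtype.ext ?_))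
          · exact (F.mp_comp _ _ _).symm
          · exact (F.mp_comp _ _ _).symm }
    let i : P ⟶ V :=
      { app := fun a => ModuleCat.ofHom ((A a.n).subtype.coprod (B a.n).subtype)
        naturality := fun a b f => ModuleCat.hom_ext (LinearMap.ext fun x =>
          (map_add (F.mp f) x.1.1 x.2.1).symm) }
    let p : P ⟶ V :=
      { app := fun a => ModuleCat.ofHom ((A a.n).subtype ∘ₗ LinearMap.fst k _ _)
        naturality := fun a b f => ModuleCat.hom_ext (LinearMap.ext fun x => rfl) }
    have : ∀ a, Mono (i.app a) := fun a => (ModuleCat.mono_iff_injective _).mpr (by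
      change Function.Injective ((A a.n).subtype.coprod (B a.n).subtype)
      rw [injective_iff_map_eq_zero]
      rintro ⟨x, y⟩ h
      have h' : (x : V.obj ⟨a.n⟩) + y = 0 := h
      have hx : (x : V.obj ⟨a.n⟩) = 0 := Submodule.disjoint_def.mp (hAB a.n) _ x.2
        (by rw [eq_neg_of_add_eq_zero_left h']; exact neg_mem y.2)
      rw [hx, zero_add] at h'
      exact Prod.ext (Subtype.ext hx) (Subtype.ext h'))
    have : Mono i := NatTrans.mono_of_mono_app i
    let e := Injective.factorThru p i
    have he : ∀ (n : ℕ) (x : A n × B n), (e.app ⟨n⟩).hom (x.1.1 + x.2.1) = x.1.1 := fun n x =>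
      congrArg (fun t : P ⟶ V => (t.app ⟨n⟩).hom x) (Injective.comp_factorThru p i)
    refine ⟨fun n => (e.app ⟨n⟩).hom, fun m n f x => ?_, fun n x hx => ?_, fun n x hx => ?_⟩
    · exact congrArg (fun t => t.hom x) (e.naturality (X := ⟨m⟩) (Y := ⟨n⟩) f)
    · simpa using he n (⟨x, hx⟩, 0)
    · simpa using he n (0, ⟨x, hx⟩)
  · rcases hind (fun a => A a.n) (fun a => B a.n) (fun a b f => hA a.n b.n f)
      (fun a b f => hB a.n b.n f) (fun a => hAB a.n) with h | h
    · exact Or.inl fun n => h ⟨n⟩
    · exact Or.inr fun n => h ⟨n⟩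

end Pool.Agent.Results.MP_b23a2c_al.Finite
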